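import Pool.Agent.W732.Ud.Stm

/-!
# Approximate extrapolation by roots of unity (task UD-T1)
-/

set_option autoImplicit false

namespace Pool.Agent.W32.Ud

open Metric Set Filter Topology Complex
open Pool.Agent.W732.Ud

/-- the Taylor coefficients -/
noncomputable def tc (γ : ℂ → ℂ) (m : ℕ) : ℂ := (m.factorial : ℂ)⁻¹ * iteratedDeriv m γ 0

theorem tc_sum {γ : ℂ → ℂ} {R : ℝ} (hγ : DifferentiableOn ℂ γ (ball 0 R)) {z : ℂ}
    (hz : z ∈ ball (0 : ℂ) R) : HasSum (fun m => tc γ m * z ^ m) (γ z) := by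
  have h := Complex.hasSum_taylorSeries_on_ball hγ hz
  refine h.congr_fun ?_
  intro m
  simp only [tc, sub_zero, smul_eq_mul]
  ring

theorem tc_bound {γ : ℂ → ℂ} {R : ℝ} (hR : 0 < R) (hγ : DifferentiableOn ℂ γ (ball 0 R))
    (hb : ∀ ζ ∈ ball (0 : ℂ) R, ‖γ ζ‖ ≤ 1) (m : ℕ) : ‖tc γ m‖ * R ^ m ≤ 1 := by
  have h1 : ∀ s : ℝ, 0 < s → s < R → ‖tc γ m‖ * s ^ m ≤ 1 := by
    intro s hs hsR
    have hcl : closedBall (0 : ℂ) s ⊆ ball 0 R := closedBall_subset_ball hsR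
    have hd : DiffContOnCl ℂ γ (ball 0 s) := by
      apply DifferentiableOn.diffContOnCl
      rw [closure_ball _ hs.ne']
      exact hγ.mono hcl
    have h2 := Complex.norm_iteratedDeriv_le_of_forall_mem_sphere_norm_le m hs hd
      (fun z hz => hb z (hcl (sphere_subset_closedBall hz)))
    have hf : (0 : ℝ) < m.factorial := by exact_mod_cast m.factorial_pos
    have h3 : ‖tc γ m‖ = (m.factorial : ℝ)⁻¹ * ‖iteratedDeriv m γ 0‖ := by
      rw [tc, norm_mul, norm_inv, Complex.norm_natCast]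
    rw [h3]
    have h4 : (m.factorial : ℝ)⁻¹ * ‖iteratedDeriv m γ 0‖ * s ^ m ≤
        (m.factorial : ℝ)⁻¹ * (m.factorial * 1 / s ^ m) * s ^ m := by
      apply mul_le_mul_of_nonneg_right _ (by positivity)
      exact mul_le_mul_of_nonneg_left h2 (by positivity)
    refine h4.trans (le_of_eq ?_)
    field_simp
  have h2 : Tendsto (fun s : ℝ => ‖tc γ m‖ * s ^ m) (𝓝[<] R) (𝓝 (‖tc γ m‖ * R ^ m)) := by
    have h3 : Continuous (fun s : ℝ => ‖tc γ m‖ * s ^ m) := by fun_prop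
    exact (h3.tendsto R).mono_left nhdsWithin_le_nhds
  refine le_of_tendsto h2 ?_
  have h4 : Ioo 0 R ∈ 𝓝[<] R := Ioo_mem_nhdsLT hR
  filter_upwards [h4] with s hs
  exact h1 s hs.1 hs.2

/-- the sum over the roots of unity -/
theorem root_sum {M : ℕ} (hM : 0 < M) {ω : ℂ} (hω : IsPrimitiveRoot ω M) {r k : ℕ} (hr : r < M)
    (hk : k < M) : ∑ j ∈ Finset.range M, (ω ^ j) ^ r * ((ω ^ j)⁻¹) ^ k =
      if k = r then (M : ℂ) else 0 := by
  have hω0 : ω ≠ 0 := hω.ne_zero hM.ne'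
  have h1 : ∀ j ∈ Finset.range M, (ω ^ j) ^ r * ((ω ^ j)⁻¹) ^ k = (ω ^ r * (ω ^ k)⁻¹) ^ j := by
    intro j _
    rw [mul_pow, inv_pow, inv_pow, ← pow_mul, ← pow_mul, ← pow_mul, ← pow_mul, mul_comm j r,
      mul_comm j k]
  rw [Finset.sum_congr rfl h1]
  by_cases hkr : k = r
  · subst hkr
    rw [if_pos rfl, mul_inv_cancel₀ (pow_ne_zero _ hω0)]
    simp
  · rw [if_neg hkr]
    have hne : ω ^ r * (ω ^ k)⁻¹ ≠ 1 := by
      intro h
      rw [← div_eq_mul_inv, div_eq_one_iff_eq (pow_ne_zero _ hω0)] at h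
      exact hkr (hω.pow_inj hr hk h).symm
    have h2 := geom_sum_mul (ω ^ r * (ω ^ k)⁻¹) M
    have h3 : (ω ^ r * (ω ^ k)⁻¹) ^ M = 1 := by
      rw [mul_pow, inv_pow, ← pow_mul, ← pow_mul, mul_comm r M, mul_comm k M, pow_mul, pow_mul,
        hω.pow_eq_one, one_pow, one_pow, inv_one, mul_one]
    rw [h3, sub_self] at h2
    rcases mul_eq_zero.1 h2 with h | h
    · exact h
    · exact absurd (sub_eq_zero.1 h) hne

/-- the functional on a power -/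
theorem pow_sum {M : ℕ} (hM : 0 < M) {ω : ℂ} (hω : IsPrimitiveRoot ω M) (t : ℂ) (m : ℕ) :
    (1 / M : ℂ) * ∑ j ∈ Finset.range M, (ω ^ j) ^ m *
      ∑ k ∈ Finset.range M, ((t * ω ^ j)⁻¹) ^ k = (t⁻¹) ^ (m % M) := by
  have hM0 : (M : ℂ) ≠ 0 := by exact_mod_cast hM.ne'
  have hr : m % M < M := Nat.mod_lt _ hM
  have h1 : ∀ j ∈ Finset.range M, (ω ^ j) ^ m * ∑ k ∈ Finset.range M, ((t * ω ^ j)⁻¹) ^ k =
      ∑ k ∈ Finset.range M, (t⁻¹) ^ k * ((ω ^ j) ^ (m % M) * ((ω ^ j)⁻¹) ^ k) := by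
    intro j _
    have h2 : (ω ^ j) ^ m = (ω ^ j) ^ (m % M) := by
      conv_lhs => rw [← Nat.mod_add_div m M]
      rw [pow_add, pow_mul (ω ^ j) M, ← pow_mul ω j M, mul_comm j M, pow_mul ω M j,
        hω.pow_eq_one, one_pow, one_pow, mul_one]
    rw [h2, Finset.mul_sum]
    refine Finset.sum_congr rfl fun k _ => ?_
    rw [mul_inv, mul_pow]
    ring
  rw [Finset.sum_congr rfl h1, Finset.sum_comm]
  have h3 : ∀ k ∈ Finset.range M, ∑ j ∈ Finset.range M,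
      (t⁻¹) ^ k * ((ω ^ j) ^ (m % M) * ((ω ^ j)⁻¹) ^ k) =
      if k = m % M then (t⁻¹) ^ k * M else 0 := by
    intro k hk
    rw [← Finset.mul_sum, root_sum hM hω hr (Finset.mem_range.1 hk)]
    split_ifs
    · rfl
    · rw [mul_zero]
  rw [Finset.sum_congr rfl h3, Finset.sum_ite_eq' (Finset.range M) (m % M),
    if_pos (Finset.mem_range.2 hr)]
  field_simp

theorem main : S_thin1 := by
  intro ρ t hρ hρt ht1
  have ht0 : 0 < t := hρ.trans hρt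
  set x : ℝ := ρ / t with hx
  have hx0 : 0 < x := by positivity
  have hx1 : x < 1 := by rw [hx, div_lt_one ht0]; exact hρt
  refine ⟨2 * (1 - x)⁻¹, ?_⟩
  intro M hM γ hγ hb
  have hM0 : (M : ℂ) ≠ 0 := by exact_mod_cast hM.ne'
  set ω : ℂ := exp (2 * Real.pi * I / M) with hωdef
  have hω : IsPrimitiveRoot ω M := Complex.isPrimitiveRoot_exp M hM.ne'
  have hexp : ∀ j : ℕ, exp (2 * Real.pi * I * (j / M : ℂ)) = ω ^ j := by
    intro j
    rw [hωdef, ← Complex.exp_nat_mul]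
    congr 1
    field_simp
  have hRpos : 0 < 1 / ρ := by positivity
  have ht2 : ((1 / t : ℂ)) ∈ ball (0 : ℂ) (1 / ρ) := by
    rw [mem_ball_zero_iff, norm_div, norm_one, Complex.norm_real, Real.norm_of_nonneg ht0.le]
    exact one_div_lt_one_div_of_lt hρ hρt
  have hωj : ∀ j : ℕ, ω ^ j ∈ ball (0 : ℂ) (1 / ρ) := by
    intro j
    have h1 : ‖ω ^ j‖ = 1 := by
      rw [norm_pow, hω.norm'_eq_one hM.ne', one_pow]
    rw [mem_ball_zero_iff, h1, lt_div_iff₀ hρ, one_mul]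
    exact hρt.trans ht1
  have hs1 := tc_sum hγ ht2
  have hs2 : HasSum (fun m => (1 / M : ℂ) * ∑ j ∈ Finset.range M, (tc γ m * (ω ^ j) ^ m) *
      ∑ k ∈ Finset.range M, ((t * ω ^ j)⁻¹ : ℂ) ^ k)
      ((1 / M : ℂ) * ∑ j ∈ Finset.range M, γ (ω ^ j) *
      ∑ k ∈ Finset.range M, ((t * ω ^ j)⁻¹ : ℂ) ^ k) := by
    apply HasSum.mul_left
    apply hasSum_sum
    intro j _
    exact (tc_sum hγ (hωj j)).mul_right _
  have hs := hs1.sub hs2
  simp only [hexp]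
  -- the bound
  have hg : HasSum (fun m : ℕ => if m < M then 0 else 2 * x ^ m) (2 * (1 - x)⁻¹ * x ^ M) := by
    have h1 : HasSum (fun n : ℕ => 2 * x ^ M * x ^ n) (2 * x ^ M * (1 - x)⁻¹) :=
      (hasSum_geometric_of_lt_one hx0.le hx1).mul_left _
    have h2 := (hasSum_nat_add_iff (f := fun m : ℕ => if m < M then 0 else 2 * x ^ m) M
      (g := 2 * x ^ M * (1 - x)⁻¹)).1 (by
        have hfe : (fun n : ℕ => (fun m : ℕ => if m < M then (0 : ℝ) else 2 * x ^ m) (n + M)) =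
            fun n => 2 * x ^ M * x ^ n := by
          funext n
          beta_reduce
          rw [if_neg (by omega), pow_add]
          ring
        rw [hfe]
        exact h1)
    have h3 : ∑ i ∈ Finset.range M, (if i < M then 0 else 2 * x ^ i) = 0 :=
      Finset.sum_eq_zero fun i hi => if_pos (Finset.mem_range.1 hi)
    rw [h3, add_zero] at h2
    have h4 : 2 * (1 - x)⁻¹ * x ^ M = 2 * x ^ M * (1 - x)⁻¹ := by ring
    rw [h4]
    exact h2
  refine HasSum.norm_le_of_bounded hs hg ?_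
  intro m
  have e1 : tc γ m * (1 / t : ℂ) ^ m - (1 / M : ℂ) * ∑ j ∈ Finset.range M, (tc γ m * (ω ^ j) ^ m) *
      ∑ k ∈ Finset.range M, ((t * ω ^ j)⁻¹ : ℂ) ^ k =
      tc γ m * (((t : ℂ)⁻¹) ^ m - ((t : ℂ)⁻¹) ^ (m % M)) := by
    rw [← pow_sum hM hω (t : ℂ) m]
    rw [mul_sub, one_div]
    congr 1
    have h5 : ∀ j ∈ Finset.range M, (tc γ m * (ω ^ j) ^ m) *
        ∑ k ∈ Finset.range M, ((t * ω ^ j)⁻¹ : ℂ) ^ k = tc γ m * ((ω ^ j) ^ m *
        ∑ k ∈ Finset.range M, ((t * ω ^ j)⁻¹ : ℂ) ^ k) := fun j _ => by ring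
    rw [Finset.sum_congr rfl h5, ← Finset.mul_sum]
    ring
  rw [e1]
  by_cases hmM : m < M
  · rw [if_pos hmM, Nat.mod_eq_of_lt hmM, sub_self, mul_zero, norm_zero]
  · rw [if_neg hmM, norm_mul]
    have ht1' : 1 ≤ t⁻¹ := (one_le_inv₀ ht0).2 ht1.le
    have h5 : ‖((t : ℂ)⁻¹) ^ m - ((t : ℂ)⁻¹) ^ (m % M)‖ ≤ 2 * (t⁻¹) ^ m := by
      refine (norm_sub_le _ _).trans ?_
      rw [norm_pow, norm_pow, norm_inv, Complex.norm_real, Real.norm_of_nonneg ht0.le]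
      have h6 : (t⁻¹) ^ (m % M) ≤ (t⁻¹) ^ m := pow_le_pow_right₀ ht1' (Nat.mod_le _ _)
      linarith
    have h6 := tc_bound hRpos hγ hb m
    have h7 : ‖tc γ m‖ ≤ ρ ^ m := by
      rw [one_div, inv_pow, ← div_eq_mul_inv, div_le_one (by positivity)] at h6
      exact h6
    calc ‖tc γ m‖ * ‖((t : ℂ)⁻¹) ^ m - ((t : ℂ)⁻¹) ^ (m % M)‖ ≤ ρ ^ m * (2 * (t⁻¹) ^ m) :=
          mul_le_mul h7 h5 (norm_nonneg _) (by positivity)
      _ = 2 * x ^ m := by rw [hx, div_eq_mul_inv, mul_pow]; ring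

end Pool.Agent.W32.Ud
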